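import Mathlib

/-!
MP_a8fbd7_nt (primes in Oppermann intervals), block OX, part TAB: the exponent table (definitions).

`f` is a block of length `T^b` and of relative gain `u = w/b`: `|f| = T^(b-w)` on a class of measure `T^tau`; `W` is the total
gain exponent on the class, `r` the exponent of the number of exceptional intervals.
-/

namespace Pool.Agent.Work.MP_a8fbd7_nt.OX

/-- Guth-Maynard menu (`LV.StG` with `k = q`) for a polynomial of length `T^l` and gain `T^g`, windows of length `T^t` -/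
noncomputable def GMx (q : ℕ) (l g t : ℝ) : ℝ :=
  max 0 (1 - t) + max (2 * g) (max (4 * t / 3 - 2 * l + 4 * g) (max (t / 2 - l + 4 * g)
    (max (t - 2 * l + 16 * g / 3) (max (t - 2 * l + 28 * g / 5) (max (3 * t / 2 - 3 * l + 7 * g)
      (max ((q : ℝ) / (q + 1) * (t / q - l + 6 * g)) ((q : ℝ) / (q + 1) * (t - 2 * l + 6 * g))))))))

/-- Jutila menu (`LV.StJ` with `k = 3`) -/
noncomputable def JTx (l g t : ℝ) : ℝ :=
  1 - t + max (2 * g) (max (3 * t - 6 * l + 12 * g) (2 * t / 3 - 4 * l + 16 * g))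

/-- large value inequalities for `f^k` (length `k b`, gain `k w`, class `T^tau`, height `T`), tolerance `s` -/
structure LVx (b w tau s : ℝ) (Q k : ℕ) : Prop where
  mv : tau ≤ 2 * (k * w) + max 0 (1 - k * b) + s
  hx : tau ≤ max (2 * (k * w)) (1 + 6 * (k * w) - 2 * (k * b)) + s
  gm : ∀ (q : ℕ) (t : ℝ), 1 ≤ q → q ≤ Q → k * b ≤ t → t + s ≤ 2 * (k * b) → tau ≤ GMx q (k * b) (k * w) t + s
  jj : ∀ t : ℝ, 0 ≤ t → t ≤ 1 → k * w + s ≤ k * b / 4 → tau ≤ JTx (k * b) (k * w) t + s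

/-- the table at the exponent `r`: blocks of length `b ≤ b1` and relative gain `≥ v0`; `W ≥ (2 - th) w/b - s`.
The alternatives `W ≤ tau + s` (no trivial success) and, for each power `f^j`, `2W - 2jw ≤ tau + s` or
`r ≤ tau + 2jw - 2W + 1 - jb + s` (no success with the weight `f^j`) are contradictory. -/
def Table (r b1 v0 th : ℝ) : Prop := ∃ s : ℝ, 0 < s ∧ ∃ Q : ℕ, ∀ b w tau W : ℝ, 0 < b → b ≤ b1 → v0 * b ≤ w → w ≤ b →
  (2 - th) * w ≤ (W + s) * b → W ≤ tau + s →
  (∀ k : ℕ, 1 ≤ k → k * b ≤ 2 → LVx b w tau s Q k) →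
  (∀ j : ℕ, j * b ≤ 1 → 2 * W - 2 * (j * w) ≤ tau + s ∨ r ≤ tau + 2 * (j * w) - 2 * W + 1 - j * b + s) → False

end Pool.Agent.Work.MP_a8fbd7_nt.OX
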