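import Mathlib
import Pool.Agent.Work.MP_a8fbd7_nt.OX.TAB.Defs

/-!
MP_a8fbd7_nt, block OX, part TAB: proof of the exponent table at `r = 97/500`.
-/

namespace Pool.Agent.Work.MP_a8fbd7_nt.OX.TAB

/-- Case A: some power of the block has length in `[403/500, 1 - κ]` -/
theorem caseA (κ l u p τ s th : ℝ) (hp : p = l * u) (hκ : 0 < κ) (hκ1 : κ ≤ 1 / 1000)
    (hl1 : 403 / 500 ≤ l) (hl2 : l ≤ 1 - κ) (hu0 : 0 < u) (hu1 : u ≤ 1)
    (hth : th ≤ κ ^ 2 / 100) (hs0 : 0 < s) (hs : s ≤ κ ^ 2 / 100 * u)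
    (hf : 4 * u - 2 * p - 2 * (th * u) - 3 * s ≤ τ)
    (mv : τ ≤ 2 * p + (1 - l) + s)
    (hx : τ ≤ 2 * p + s ∨ τ ≤ 1 + 6 * p - 2 * l + s)
    (gm : τ ≤ 2 * p + s ∨ τ ≤ 4 / 3 - 2 * l + 4 * p + s ∨ τ ≤ 1 / 2 - l + 4 * p + s ∨
      τ ≤ 1 - 2 * l + 16 * p / 3 + s ∨ τ ≤ 1 - 2 * l + 28 * p / 5 + s ∨ τ ≤ 3 / 2 - 3 * l + 7 * p + s ∨
      (τ - s) * (1 + κ) ≤ κ - l + 6 * p ∨ (τ - s) * (1 + κ) ≤ 1 - 2 * l + 6 * p) : False := by
  have hk2 : κ ^ 2 ≤ κ / 1000 := by
    have := mul_le_mul_of_nonneg_left hκ1 hκ.le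
    rw [sq]; linarith
  have hk2' : 0 < κ ^ 2 := by positivity
  -- total perturbation
  have hpert : 2 * (th * u) + 4 * s ≤ 6 * (κ ^ 2 / 100 * u) := by
    have : th * u ≤ κ ^ 2 / 100 * u := mul_le_mul_of_nonneg_right hth hu0.le
    linarith
  set e : ℝ := κ ^ 2 / 100 * u with he
  have he1 : e ≤ κ ^ 2 / 100 := by
    have := mul_le_mul_of_nonneg_left hu1 (show 0 ≤ κ ^ 2 / 100 by positivity)
    rw [he]; linarith
  have he0 : 0 < e := by positivity
  -- the term `2p`
  have h2p : ¬ τ ≤ 2 * p + s := by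
    intro h
    have h1 : 4 * u - 4 * p ≤ 6 * e := by linarith
    have h2 : κ * u ≤ (1 - l) * u := mul_le_mul_of_nonneg_right (by linarith) hu0.le
    have h3 : e ≤ κ * u / 100000 := by
      rw [he]
      have : κ ^ 2 * u ≤ κ / 1000 * u := mul_le_mul_of_nonneg_right hk2 hu0.le
      linarith
    have h4 : 0 < κ * u := by positivity
    have h5 : (1 - l) * u = u - p := by rw [hp]; ring
    rw [h5] at h2
    linarith
  have hx' : τ ≤ 1 + 6 * p - 2 * l + s := hx.resolve_left h2p
  -- `u < 1/4 + κ/32`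
  have hu2 : u < 1 / 4 + κ / 32 := by
    by_contra hc
    push Not at hc
    have h1 : (1 - l) * (4 * u - 1) ≤ 6 * e := by
      have : (1 - l) * (4 * u - 1) = 4 * u - 4 * p - (1 - l) := by rw [hp]; ring
      rw [this]; linarith
    have h2 : κ * (κ / 8) ≤ (1 - l) * (4 * u - 1) :=
      mul_le_mul (by linarith) (by linarith) (by positivity) (by linarith)
    have h3 : κ * (κ / 8) = κ ^ 2 / 8 := by ring
    linarith
  -- `u > 1/4 - κ/32`
  have hu3 : 1 / 4 - κ / 32 < u := by
    by_contra hc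
    push Not at hc
    have h1 : (2 * l - 1) * (1 - 4 * u) ≤ 6 * e := by
      have : (2 * l - 1) * (1 - 4 * u) = 2 * l - 1 - 8 * p + 4 * u := by rw [hp]; ring
      rw [this]; linarith
    have h2 : (306 / 500) * (κ / 8) ≤ (2 * l - 1) * (1 - 4 * u) :=
      mul_le_mul (by linarith) (by linarith) (by positivity) (by linarith)
    linarith
  have he2 : e ≤ κ / 100000 := by linarith
  -- bounds for p
  have P1 : 0 ≤ (1 - κ - l) * (u - (1 / 4 - κ / 32)) := mul_nonneg (by linarith) (by linarith)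
  have P2 : 0 ≤ (1 - κ - l) * (1 / 4 + κ / 32 - u) := mul_nonneg (by linarith) (by linarith)
  have P3 : 0 ≤ (l - 403 / 500) * (u - (1 / 4 - κ / 32)) := mul_nonneg (by linarith) (by linarith)
  have P4 : 0 ≤ (l - 403 / 500) * (1 / 4 + κ / 32 - u) := mul_nonneg (by linarith) (by linarith)
  have hkl : κ * (403 / 500) ≤ κ * l := mul_le_mul_of_nonneg_left hl1 hκ.le
  have hkl2 : κ * l ≤ κ * 1 := mul_le_mul_of_nonneg_left (by linarith) hκ.le
  have hku : κ * u ≤ κ * (251 / 1000) := mul_le_mul_of_nonneg_left (by linarith) hκ.le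
  have hku2 : κ * (249 / 1000) ≤ κ * u := mul_le_mul_of_nonneg_left (by linarith) hκ.le
  -- p - l/4 is small
  have Q1 : p ≤ l / 4 + κ / 32 := by
    have : l * (u - 1 / 4) ≤ l * (κ / 32) := mul_le_mul_of_nonneg_left (by linarith) (by linarith)
    linarith
  have Q2 : l / 4 - κ / 32 ≤ p := by
    have : l * (1 / 4 - u) ≤ l * (κ / 32) := mul_le_mul_of_nonneg_left (by linarith) (by linarith)
    linarith
  have hkp : 0 ≤ κ * (4 * u - 2 * p - 45 / 100) := mul_nonneg hκ.le (by linarith)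
  have hks : κ * s ≤ 1 / 1000 * s := mul_le_mul_of_nonneg_right hκ1 hs0.le
  have hke : (1 + κ) * (2 * (th * u) + 4 * s) ≤ (1 + κ) * (6 * e) := mul_le_mul_of_nonneg_left hpert (by linarith)
  have hke2 : κ * e ≤ 1 * e := mul_le_mul_of_nonneg_right (by linarith) he0.le
  have hf' : 4 * u - 2 * p - (2 * (th * u) + 4 * s) ≤ τ - s := by linarith
  have hf'' : (4 * u - 2 * p - (2 * (th * u) + 4 * s)) * (1 + κ) ≤ (τ - s) * (1 + κ) :=
    mul_le_mul_of_nonneg_right hf' (by linarith)
  have hlow : 4 * u - 2 * p + 45 / 100 * κ - 12 * e ≤ (τ - s) * (1 + κ) := by linarith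
  have hlu : 4 * u - 8 * p = 4 * (u * (1 - 2 * l)) := by rw [hp]; ring
  have hlu2 : (1 / 4 + κ / 32) * (1 - 2 * l) ≤ u * (1 - 2 * l) := by
    have : 0 ≤ (1 / 4 + κ / 32 - u) * (2 * l - 1) := mul_nonneg (by linarith) (by linarith)
    linarith
  rcases gm with h | h | h | h | h | h | h | h
  · exact h2p h
  · linarith
  · linarith
  · linarith
  · linarith
  · linarith
  · linarith
  · linarith

/-- MV for `f^3` beats the requirement of the weight `f^2` -/
theorem mv3B (b u p τ e : ℝ) (hp : p = b * u) (hb1 : 333 / 1000 ≤ b) (hb2 : b ≤ 3915 / 10000)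
    (he0 : 0 < e) (he : e ≤ 1 / 1000000)
    (h2 : 4 * u - 4 * p + 2 * b - 806 / 1000 - 5 * e ≤ τ)
    (mv3 : τ ≤ 6 * p + e ∨ τ ≤ 6 * p + (1 - 3 * b) + e)
    (hc : (b ≤ 345 / 1000 ∧ 215 / 1000 ≤ u) ∨ (345 / 1000 ≤ b ∧ b ≤ 37 / 100 ∧ 222 / 1000 ≤ u) ∨
      (37 / 100 ≤ b ∧ b ≤ 385 / 1000 ∧ 25 / 100 ≤ u) ∨ (385 / 1000 ≤ b ∧ b ≤ 3905 / 10000 ∧ 27 / 100 ≤ u) ∨
      (3905 / 10000 ≤ b ∧ 2765 / 10000 ≤ u)) : False := by
  have key : ∀ u0 : ℝ, u0 ≤ u → (4 - 10 * b) * u0 ≤ 4 * u - 10 * p := by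
    intro u0 h
    have : 0 ≤ (4 - 10 * b) * (u - u0) := mul_nonneg (by linarith) (by linarith)
    rw [hp]; linarith
  rcases hc with ⟨h, hu⟩ | ⟨h1, h, hu⟩ | ⟨h1, h, hu⟩ | ⟨h1, h, hu⟩ | ⟨h1, hu⟩
  · have := key _ hu
    rcases mv3 with h3 | h3 <;> linarith
  · have := key _ hu
    rcases mv3 with h3 | h3 <;> linarith
  · have := key _ hu
    rcases mv3 with h3 | h3 <;> linarith
  · have := key _ hu
    rcases mv3 with h3 | h3 <;> linarith
  · have := key _ hu
    rcases mv3 with h3 | h3 <;> linarith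

/-- Guth-Maynard for `f^2` beats the requirement of the weight `f^2` -/
theorem gmB (b u p τ e : ℝ) (hp : p = b * u) (hb1 : 37 / 100 ≤ b) (hb2 : b ≤ 403 / 1000)
    (he0 : 0 < e) (he : e ≤ 1 / 1000000) (hu : 215 / 1000 ≤ u)
    (h2 : 4 * u - 4 * p + 2 * b - 806 / 1000 - 5 * e ≤ τ)
    (gm : τ ≤ 1 - 12 / 5 * b + 4 * p + e ∨ τ ≤ 1 - 12 / 5 * b + (8 * p - 4 / 5 * b) + e ∨
      τ ≤ 1 - 12 / 5 * b + (32 / 3 * p - 8 / 5 * b) + e ∨ τ ≤ 1 - 12 / 5 * b + (56 / 5 * p - 8 / 5 * b) + e ∨
      τ ≤ 1 - 12 / 5 * b + (14 * p - 12 / 5 * b) + e ∨ τ ≤ 1 - 12 / 5 * b + 6 / 7 * (12 * p - 8 / 5 * b) + e)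
    (hc : u ≤ 25 / 100 ∨ (385 / 1000 ≤ b ∧ u ≤ 27 / 100) ∨ (3905 / 10000 ≤ b ∧ u ≤ 2765 / 10000) ∨
      (3915 / 10000 ≤ b ∧ u ≤ 2775 / 10000)) : False := by
  have key : ∀ c u0 : ℝ, 12 ≤ c → u ≤ u0 → (4 - c * b) * u0 ≤ 4 * u - c * p := by
    intro c u0 hc h
    have h4 : 12 * b ≤ c * b := mul_le_mul_of_nonneg_right hc (by linarith)
    have : 0 ≤ (c * b - 4) * (u0 - u) := mul_nonneg (by linarith) (by linarith)
    rw [hp]; linarith
  have key2 : (4 - 8 * b) * (215 / 1000) ≤ 4 * u - 8 * p := by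
    have : 0 ≤ (4 - 8 * b) * (u - 215 / 1000) := mul_nonneg (by linarith) (by linarith)
    rw [hp]; linarith
  rcases hc with h | ⟨h1, h⟩ | ⟨h1, h⟩ | ⟨h1, h⟩
  · have k1 := key 12 _ (by norm_num) h
    have k2 := key (44 / 3) _ (by norm_num) h
    have k3 := key (76 / 5) _ (by norm_num) h
    have k4 := key 18 _ (by norm_num) h
    have k5 := key (100 / 7) _ (by norm_num) h
    rcases gm with g | g | g | g | g | g <;> linarith
  · have k1 := key 12 _ (by norm_num) h
    have k2 := key (44 / 3) _ (by norm_num) h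
    have k3 := key (76 / 5) _ (by norm_num) h
    have k4 := key 18 _ (by norm_num) h
    have k5 := key (100 / 7) _ (by norm_num) h
    rcases gm with g | g | g | g | g | g <;> linarith
  · have k1 := key 12 _ (by norm_num) h
    have k2 := key (44 / 3) _ (by norm_num) h
    have k3 := key (76 / 5) _ (by norm_num) h
    have k4 := key 18 _ (by norm_num) h
    have k5 := key (100 / 7) _ (by norm_num) h
    rcases gm with g | g | g | g | g | g <;> linarith
  · have k1 := key 12 _ (by norm_num) h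
    have k2 := key (44 / 3) _ (by norm_num) h
    have k3 := key (76 / 5) _ (by norm_num) h
    have k4 := key 18 _ (by norm_num) h
    have k5 := key (100 / 7) _ (by norm_num) h
    rcases gm with g | g | g | g | g | g <;> linarith

/-- Case B: `b` between `1/3` and `403/1000` -/
theorem caseB (b u p τ e : ℝ) (hp : p = b * u) (hb1 : 333 / 1000 ≤ b) (hb2 : b ≤ 403 / 1000)
    (hu0 : 0 < u) (hu1 : u ≤ 1) (he0 : 0 < e) (he : e ≤ u / 1000000)
    (h0 : 2 * u - 3 * e ≤ τ) (h2 : 4 * u - 4 * p + 2 * b - 806 / 1000 - 5 * e ≤ τ)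
    (hx2 : τ ≤ 4 * p + e ∨ τ ≤ 1 + 12 * p - 4 * b + e)
    (mv2 : τ ≤ 4 * p + (1 - 2 * b) + e)
    (mv3 : τ ≤ 6 * p + e ∨ τ ≤ 6 * p + (1 - 3 * b) + e)
    (jj : ∀ t : ℝ, 0 ≤ t → t ≤ 1 → 2 * p + e ≤ b / 2 →
      τ ≤ 1 - t + 4 * p + e ∨ τ ≤ 1 - t + (3 * t - 12 * b + 24 * p) + e ∨
        τ ≤ 1 - t + (2 * t / 3 - 8 * b + 32 * p) + e)
    (gm : τ ≤ 1 - 12 / 5 * b + 4 * p + e ∨ τ ≤ 1 - 12 / 5 * b + (8 * p - 4 / 5 * b) + e ∨
      τ ≤ 1 - 12 / 5 * b + (32 / 3 * p - 8 / 5 * b) + e ∨ τ ≤ 1 - 12 / 5 * b + (56 / 5 * p - 8 / 5 * b) + e ∨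
      τ ≤ 1 - 12 / 5 * b + (14 * p - 12 / 5 * b) + e ∨ τ ≤ 1 - 12 / 5 * b + 6 / 7 * (12 * p - 8 / 5 * b) + e) :
    False := by
  have he' : e ≤ 1 / 1000000 := by linarith
  have hp4 : 4 * p ≤ 1612 / 1000 * u := by
    have : b * u ≤ 403 / 1000 * u := mul_le_mul_of_nonneg_right hb2 hu0.le
    rw [hp]; linarith
  have hx : τ ≤ 1 + 12 * p - 4 * b + e := by
    rcases hx2 with h | h
    · exfalso; linarith
    · exact h
  -- small gains
  rcases le_total u (16 / 100) with c1 | c1
  · have : 0 ≤ (12 * b - 2) * (16 / 100 - u) := mul_nonneg (by linarith) (by linarith)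
    rw [hp] at *
    linarith
  rcases le_total b (37 / 100) with c2 | c2
  · by_cases hc : (b ≤ 345 / 1000 ∧ 215 / 1000 ≤ u) ∨ (345 / 1000 ≤ b ∧ b ≤ 37 / 100 ∧ 222 / 1000 ≤ u)
    · refine mv3B b u p τ e hp hb1 (by linarith) he0 he' h2 mv3 ?_
      rcases hc with hc | hc
      · exact Or.inl hc
      · exact Or.inr (Or.inl hc)
    · have hu2 : u ≤ 222 / 1000 := by
        by_contra h
        push Not at h
        apply hc
        rcases le_total b (345 / 1000) with h' | h'
        · exact Or.inl ⟨h', by linarith⟩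
        · exact Or.inr ⟨h', c2, h.le⟩
      have hup : p ≤ 222 / 1000 * b := by
        have : b * u ≤ b * (222 / 1000) := mul_le_mul_of_nonneg_left hu2 (by linarith)
        rw [hp]; linarith
      rcases le_total (4 * b - 20 / 3 * p) 1 with c3 | c3
      · have hj := jj (4 * b - 20 / 3 * p) (by linarith) c3 (by linarith)
        have hj' : τ ≤ 1 - 4 * b + 32 / 3 * p + e := by
          rcases hj with h | h | h <;> linarith
        rcases le_total b (345 / 1000) with c4 | c4
        · have hu3 : u ≤ 215 / 1000 := by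
            by_contra h
            push Not at h
            exact hc (Or.inl ⟨c4, h.le⟩)
          have : 0 ≤ (44 / 3 * b - 4) * (215 / 1000 - u) := mul_nonneg (by linarith) (by linarith)
          have e1 : (44 / 3 * b - 4) * (215 / 1000 - u) = (44 / 3 * b - 4) * (215 / 1000) - 44 / 3 * p + 4 * u := by
            rw [hp]; ring
          rw [e1] at this
          linarith
        · have : 0 ≤ (44 / 3 * b - 4) * (222 / 1000 - u) := mul_nonneg (by linarith) (by linarith)
          have e1 : (44 / 3 * b - 4) * (222 / 1000 - u) = (44 / 3 * b - 4) * (222 / 1000) - 44 / 3 * p + 4 * u := by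
            rw [hp]; ring
          rw [e1] at this
          linarith
      · have : p ≤ 37 / 100 * u := by
          have : b * u ≤ 37 / 100 * u := mul_le_mul_of_nonneg_right c2 hu0.le
          rw [hp]; linarith
        linarith
  · rcases le_total u (215 / 1000) with c3 | c3
    · have : 0 ≤ (16 * b - 4) * (215 / 1000 - u) := mul_nonneg (by linarith) (by linarith)
      have e1 : (16 * b - 4) * (215 / 1000 - u) = (16 * b - 4) * (215 / 1000) - 16 * p + 4 * u := by
        rw [hp]; ring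
      rw [e1] at this
      linarith
    by_cases hc : u ≤ 25 / 100 ∨ (385 / 1000 ≤ b ∧ u ≤ 27 / 100) ∨ (3905 / 10000 ≤ b ∧ u ≤ 2765 / 10000) ∨
      (3915 / 10000 ≤ b ∧ u ≤ 2775 / 10000)
    · exact gmB b u p τ e hp c2 hb2 he0 he' c3 h2 gm hc
    · push Not at hc
      obtain ⟨d1, d2, d3, d4⟩ := hc
      rcases le_total b (3915 / 10000) with c5 | c5
      · refine mv3B b u p τ e hp hb1 c5 he0 he' h2 mv3 ?_
        rcases le_total b (385 / 1000) with c6 | c6
        · exact Or.inr (Or.inr (Or.inl ⟨c2, c6, d1.le⟩))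
        rcases le_total b (3905 / 10000) with c7 | c7
        · exact Or.inr (Or.inr (Or.inr (Or.inl ⟨c6, c7, (d2 c6).le⟩)))
        · exact Or.inr (Or.inr (Or.inr (Or.inr ⟨c7, (d3 c7).le⟩)))
      · have d5 := d4 c5
        have : 0 ≤ (4 - 8 * b) * (u - 2775 / 10000) := mul_nonneg (by linarith) (by linarith)
        have e1 : (4 - 8 * b) * (u - 2775 / 10000) = 4 * u - 8 * p - (4 - 8 * b) * (2775 / 10000) := by
          rw [hp]; ring
        rw [e1] at this
        linarith

/-- Case C: `b` between `1/4` and `2687/10000` -/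
theorem caseC (b u p τ e : ℝ) (hp : p = b * u) (hb1 : 249 / 1000 ≤ b) (hb2 : b ≤ 2687 / 10000)
    (hu0 : 0 < u) (he0 : 0 < e) (he : e ≤ u / 1000000)
    (h0 : 2 * u - 3 * e ≤ τ) (h3 : 4 * u - 6 * p + 3 * b - 806 / 1000 - 5 * e ≤ τ)
    (hx3 : τ ≤ 6 * p + e ∨ τ ≤ 1 + 18 * p - 6 * b + e)
    (mv4 : τ ≤ 8 * p + e ∨ τ ≤ 8 * p + (1 - 4 * b) + e) : False := by
  have hp4 : p ≤ 2687 / 10000 * u := by
    have : b * u ≤ 2687 / 10000 * u := mul_le_mul_of_nonneg_right hb2 hu0.le
    rw [hp]; linarith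
  rcases le_total u (15 / 100) with c1 | c1
  · have : 0 ≤ (18 * b - 2) * (15 / 100 - u) := mul_nonneg (by linarith) (by linarith)
    have e1 : (18 * b - 2) * (15 / 100 - u) = (18 * b - 2) * (15 / 100) - 18 * p + 2 * u := by
      rw [hp]; ring
    rw [e1] at this
    rcases hx3 with h | h <;> linarith
  · have : 0 ≤ (4 - 14 * b) * (u - 15 / 100) := mul_nonneg (by linarith) (by linarith)
    have e1 : (4 - 14 * b) * (u - 15 / 100) = 4 * u - 14 * p - (4 - 14 * b) * (15 / 100) := by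
      rw [hp]; ring
    rw [e1] at this
    rcases mv4 with h | h <;> linarith

/-- Case D: `b` between `1/5` and `2016/10000` -/
theorem caseD (b u p τ e : ℝ) (hp : p = b * u) (hb1 : 199 / 1000 ≤ b) (hb2 : b ≤ 2016 / 10000)
    (hu0 : 0 < u) (he0 : 0 < e) (he : e ≤ u / 1000000)
    (h0 : 2 * u - 3 * e ≤ τ) (h4 : 4 * u - 8 * p + 4 * b - 806 / 1000 - 5 * e ≤ τ)
    (hx4 : τ ≤ 8 * p + e ∨ τ ≤ 1 + 24 * p - 8 * b + e)
    (mv5 : τ ≤ 10 * p + e ∨ τ ≤ 10 * p + (1 - 5 * b) + e) : False := by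
  have hp4 : p ≤ 2016 / 10000 * u := by
    have : b * u ≤ 2016 / 10000 * u := mul_le_mul_of_nonneg_right hb2 hu0.le
    rw [hp]; linarith
  rcases le_total u (15 / 100) with c1 | c1
  · have : 0 ≤ (24 * b - 2) * (15 / 100 - u) := mul_nonneg (by linarith) (by linarith)
    have e1 : (24 * b - 2) * (15 / 100 - u) = (24 * b - 2) * (15 / 100) - 24 * p + 2 * u := by
      rw [hp]; ring
    rw [e1] at this
    rcases hx4 with h | h <;> linarith
  · have : 0 ≤ (4 - 18 * b) * (u - 15 / 100) := mul_nonneg (by linarith) (by linarith)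
    have e1 : (4 - 18 * b) * (u - 15 / 100) = 4 * u - 18 * p - (4 - 18 * b) * (15 / 100) := by
      rw [hp]; ring
    rw [e1] at this
    rcases mv5 with h | h <;> linarith

theorem gmx_cases (q : ℕ) (l g t τ s : ℝ) (h : τ ≤ GMx q l g t + s) :
    τ ≤ max 0 (1 - t) + 2 * g + s ∨ τ ≤ max 0 (1 - t) + (4 * t / 3 - 2 * l + 4 * g) + s ∨
      τ ≤ max 0 (1 - t) + (t / 2 - l + 4 * g) + s ∨ τ ≤ max 0 (1 - t) + (t - 2 * l + 16 * g / 3) + s ∨
      τ ≤ max 0 (1 - t) + (t - 2 * l + 28 * g / 5) + s ∨ τ ≤ max 0 (1 - t) + (3 * t / 2 - 3 * l + 7 * g) + s ∨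
      τ ≤ max 0 (1 - t) + ((q : ℝ) / (q + 1) * (t / q - l + 6 * g)) + s ∨
      τ ≤ max 0 (1 - t) + ((q : ℝ) / (q + 1) * (t - 2 * l + 6 * g)) + s := by
  have h' : τ - s - max 0 (1 - t) ≤ max (2 * g) (max (4 * t / 3 - 2 * l + 4 * g) (max (t / 2 - l + 4 * g)
    (max (t - 2 * l + 16 * g / 3) (max (t - 2 * l + 28 * g / 5) (max (3 * t / 2 - 3 * l + 7 * g)
      (max ((q : ℝ) / (q + 1) * (t / q - l + 6 * g)) ((q : ℝ) / (q + 1) * (t - 2 * l + 6 * g)))))))) := by
    unfold GMx at h; linarith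
  simp only [le_max_iff] at h'
  rcases h' with h | h | h | h | h | h | h | h
  · left; linarith
  · right; left; linarith
  · right; right; left; linarith
  · right; right; right; left; linarith
  · right; right; right; right; left; linarith
  · right; right; right; right; right; left; linarith
  · right; right; right; right; right; right; left; linarith
  · right; right; right; right; right; right; right; linarith

theorem jtx_cases (l g t τ s : ℝ) (h : τ ≤ JTx l g t + s) :
    τ ≤ 1 - t + 2 * g + s ∨ τ ≤ 1 - t + (3 * t - 6 * l + 12 * g) + s ∨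
      τ ≤ 1 - t + (2 * t / 3 - 4 * l + 16 * g) + s := by
  have h' : τ - s - (1 - t) ≤ max (2 * g) (max (3 * t - 6 * l + 12 * g) (2 * t / 3 - 4 * l + 16 * g)) := by
    unfold JTx at h; linarith
  simp only [le_max_iff] at h'
  rcases h' with h | h | h
  · left; linarith
  · right; left; linarith
  · right; right; linarith

/-- the table with explicit constants: `κ = 1/q`, `b ≤ (1-κ)/2`, `th ≤ κ²/100`, `s ≤ κ² v0/100` -/
theorem main (q : ℕ) (hq : 1000 ≤ q) (κ v0 th s b w τ W : ℝ) (hκ : κ = 1 / q) (hv0 : 0 < v0)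
    (hth : th ≤ κ ^ 2 / 100) (hs0 : 0 < s) (hs : s ≤ κ ^ 2 / 100 * v0) (hb : 0 < b) (hb1 : b ≤ (1 - κ) / 2)
    (hw1 : v0 * b ≤ w) (hw2 : w ≤ b) (hW : (2 - th) * w ≤ (W + s) * b) (hW2 : W ≤ τ + s)
    (hL : ∀ k : ℕ, 1 ≤ k → k * b ≤ 2 → LVx b w τ s q k)
    (hF : ∀ j : ℕ, j * b ≤ 1 → 2 * W - 2 * (j * w) ≤ τ + s ∨
      97 / 500 ≤ τ + 2 * (j * w) - 2 * W + 1 - j * b + s) : False := by
  have hq' : (1000 : ℝ) ≤ q := by exact_mod_cast hq
  have hq0 : (0 : ℝ) < q := by linarith
  have hκ0 : 0 < κ := by rw [hκ]; positivity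
  have hκ1 : κ ≤ 1 / 1000 := by
    rw [hκ]; exact one_div_le_one_div_of_le (by norm_num) hq'
  have hκ2 : κ ^ 2 ≤ 1 / 1000000 := by
    have := pow_le_pow_left₀ hκ0.le hκ1 2
    norm_num at this ⊢; linarith
  obtain ⟨u, hu⟩ : ∃ u : ℝ, w = b * u := ⟨w / b, by field_simp⟩
  have hvu : v0 ≤ u := by
    by_contra h
    push Not at h
    have : b * u < b * v0 := mul_lt_mul_of_pos_left h hb
    linarith
  have hu0 : 0 < u := lt_of_lt_of_le hv0 hvu
  have hu1 : u ≤ 1 := by
    by_contra h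
    push Not at h
    have : b * 1 < b * u := mul_lt_mul_of_pos_left h hb
    linarith
  have hWu : (2 - th) * u ≤ W + s := by
    by_contra h
    push Not at h
    have : (W + s) * b < (2 - th) * u * b := mul_lt_mul_of_pos_right h hb
    rw [hu] at hW
    linarith
  have hsu : s ≤ κ ^ 2 / 100 * u := hs.trans (mul_le_mul_of_nonneg_left hvu (by positivity))
  have hthu : th * u ≤ κ ^ 2 / 100 * u := mul_le_mul_of_nonneg_right hth hu0.le
  have hke : κ ^ 2 / 100 * u ≤ u / 1000000 := by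
    have : κ ^ 2 / 100 * u ≤ 1 / 100000000 * u := mul_le_mul_of_nonneg_right (by linarith) hu0.le
    linarith
  -- Case A
  have A : ∀ j : ℕ, 1 ≤ j → 403 / 500 ≤ j * b → j * b ≤ 1 - κ → False := by
    intro j hj h1 h2
    have LV := hL j hj (by linarith)
    have hjw : (j : ℝ) * w = (j * b) * u := by rw [hu]; ring
    have hf : 4 * u - 2 * ((j : ℝ) * b * u) - 2 * (th * u) - 3 * s ≤ τ := by
      have e := hF j (by linarith)
      rw [hjw] at e
      rcases e with e | e <;> linarith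
    have mv := LV.mv
    have hx := LV.hx
    have gm := gmx_cases _ _ _ _ _ _ (LV.gm q 1 (by omega) le_rfl (by linarith) (by linarith))
    rw [hjw] at mv hx gm
    rw [max_eq_right (by linarith)] at mv
    have m0 : max (0 : ℝ) (1 - 1) = 0 := by norm_num
    rw [m0] at gm
    have hqq : ∀ X : ℝ, τ ≤ 0 + (q : ℝ) / (q + 1) * X + s → (τ - s) * (1 + κ) ≤ X := by
      intro X hX
      have h3 : (τ - s) * (1 + κ) ≤ (q : ℝ) / (q + 1) * X * (1 + κ) :=
        mul_le_mul_of_nonneg_right (by linarith) (by linarith)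
      have h4 : (q : ℝ) / (q + 1) * X * (1 + κ) = X := by
        rw [hκ]; field_simp
      linarith
    refine caseA κ (j * b) u (j * b * u) τ s th rfl hκ0 hκ1 h1 h2 hu0 hu1 hth hs0 hsu hf mv ?_ ?_
    · rcases le_total (2 * ((j : ℝ) * b * u)) (1 + 6 * ((j : ℝ) * b * u) - 2 * (j * b)) with h | h
      · rw [max_eq_right h] at hx; exact Or.inr hx
      · rw [max_eq_left h] at hx; exact Or.inl hx
    · rcases gm with h | h | h | h | h | h | h | h
      · left; linarith
      · right; left; linarith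
      · right; right; left; linarith
      · right; right; right; left; linarith
      · right; right; right; right; left; linarith
      · right; right; right; right; right; left; linarith
      · right; right; right; right; right; right; left
        have := hqq _ h
        rw [← hκ] at this
        exact this
      · right; right; right; right; right; right; right
        exact hqq _ h
  set e : ℝ := u / 1000000 with he
  have he0 : 0 < e := by positivity
  have hse : s ≤ e := by linarith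
  have hthe : th * u ≤ e := by linarith
  have h0 : 2 * u - 3 * e ≤ τ := by linarith
  have hxx : ∀ X Y : ℝ, τ ≤ max X Y + s → τ ≤ X + e ∨ τ ≤ Y + e := by
    intro X Y h
    rcases le_total X Y with h' | h'
    · rw [max_eq_right h'] at h; right; linarith
    · rw [max_eq_left h'] at h; left; linarith
  -- the small lengths
  rcases le_or_gt b (193 / 1000) with c1 | c1
  · have hfl : (⌊(1 - κ) / b⌋₊ : ℝ) ≤ (1 - κ) / b := Nat.floor_le (div_nonneg (by linarith) hb.le)
    have hfl2 : (1 - κ) / b < ⌊(1 - κ) / b⌋₊ + 1 := Nat.lt_floor_add_one _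
    rw [le_div_iff₀ hb] at hfl
    rw [div_lt_iff₀ hb] at hfl2
    have h3 : 403 / 500 ≤ (⌊(1 - κ) / b⌋₊ : ℝ) * b := by linarith
    refine A ⌊(1 - κ) / b⌋₊ ?_ h3 hfl
    by_contra hc
    have : ⌊(1 - κ) / b⌋₊ = 0 := by omega
    rw [this] at h3
    norm_num at h3
  rcases le_or_gt b ((1 - κ) / 5) with c2 | c2
  · exact A 5 (by norm_num) (by push_cast; linarith) (by push_cast; linarith)
  rcases le_or_gt b (2015 / 10000) with c3 | c3
  · -- case D
    have F4 := hF 4 (by push_cast; linarith)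
    have L4 := (hL 4 (by norm_num) (by push_cast; linarith)).hx
    have L5 := (hL 5 (by norm_num) (by push_cast; linarith)).mv
    push_cast at F4 L4 L5
    refine caseD b u w τ e hu (by linarith) (by linarith) hu0 he0 le_rfl h0 ?_ ?_ ?_
    · rcases F4 with f | f <;> linarith
    · rcases hxx _ _ L4 with h | h
      · left; linarith
      · right; linarith
    · have : τ ≤ max (2 * (5 * w)) (2 * (5 * w) + (1 - 5 * b)) + s := by
        rcases le_total (1 - 5 * b) 0 with h | h
        · rw [max_eq_left h] at L5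
          exact L5.trans (by have := le_max_left (2 * (5 * w)) (2 * (5 * w) + (1 - 5 * b)); linarith)
        · rw [max_eq_right h] at L5
          exact L5.trans (by have := le_max_right (2 * (5 * w)) (2 * (5 * w) + (1 - 5 * b)); linarith)
      rcases hxx _ _ this with h | h
      · left; linarith
      · right; linarith
  rcases le_or_gt b ((1 - κ) / 4) with c4 | c4
  · exact A 4 (by norm_num) (by push_cast; linarith) (by push_cast; linarith)
  rcases le_or_gt b (403 / 1500) with c5 | c5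
  · -- case C
    have F3 := hF 3 (by push_cast; linarith)
    have L3 := (hL 3 (by norm_num) (by push_cast; linarith)).hx
    have L4 := (hL 4 (by norm_num) (by push_cast; linarith)).mv
    push_cast at F3 L3 L4
    refine caseC b u w τ e hu (by linarith) (by linarith) hu0 he0 le_rfl h0 ?_ ?_ ?_
    · rcases F3 with f | f <;> linarith
    · rcases hxx _ _ L3 with h | h
      · left; linarith
      · right; linarith
    · have : τ ≤ max (2 * (4 * w)) (2 * (4 * w) + (1 - 4 * b)) + s := by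
        rcases le_total (1 - 4 * b) 0 with h | h
        · rw [max_eq_left h] at L4
          exact L4.trans (by have := le_max_left (2 * (4 * w)) (2 * (4 * w) + (1 - 4 * b)); linarith)
        · rw [max_eq_right h] at L4
          exact L4.trans (by have := le_max_right (2 * (4 * w)) (2 * (4 * w) + (1 - 4 * b)); linarith)
      rcases hxx _ _ this with h | h
      · left; linarith
      · right; linarith
  rcases le_or_gt b ((1 - κ) / 3) with c6 | c6
  · exact A 3 (by norm_num) (by push_cast; linarith) (by push_cast; linarith)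
  rcases le_or_gt b (403 / 1000) with c7 | c7
  · -- case B
    have F2 := hF 2 (by push_cast; linarith)
    have LV2 := hL 2 (by norm_num) (by push_cast; linarith)
    have L2h := LV2.hx
    have L2m := LV2.mv
    have L2j := LV2.jj
    have L2g := gmx_cases _ _ _ _ _ _ (LV2.gm 6 (12 / 5 * b) (by norm_num) (by omega)
      (by push_cast; linarith) (by push_cast; linarith))
    have L3 := (hL 3 (by norm_num) (by push_cast; linarith)).mv
    push_cast at F2 L2h L2m L2j L2g L3
    rw [max_eq_right (by linarith : (0 : ℝ) ≤ 1 - 2 * b)] at L2m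
    rw [max_eq_right (by linarith : (0 : ℝ) ≤ 1 - 12 / 5 * b)] at L2g
    refine caseB b u w τ e hu (by linarith) c7 hu0 hu1 he0 le_rfl h0 ?_ ?_ (by linarith) ?_ ?_ ?_
    · rcases F2 with f | f <;> linarith
    · rcases hxx _ _ L2h with h | h
      · left; linarith
      · right; linarith
    · have : τ ≤ max (2 * (3 * w)) (2 * (3 * w) + (1 - 3 * b)) + s := by
        rcases le_total (1 - 3 * b) 0 with h | h
        · rw [max_eq_left h] at L3
          exact L3.trans (by have := le_max_left (2 * (3 * w)) (2 * (3 * w) + (1 - 3 * b)); linarith)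
        · rw [max_eq_right h] at L3
          exact L3.trans (by have := le_max_right (2 * (3 * w)) (2 * (3 * w) + (1 - 3 * b)); linarith)
      rcases hxx _ _ this with h | h
      · left; linarith
      · right; linarith
    · intro t ht0 ht1 ht
      rcases jtx_cases _ _ _ _ _ (L2j t ht0 ht1 (by linarith)) with h | h | h
      · left; linarith
      · right; left; linarith
      · right; right; linarith
    · rcases L2g with h | h | h | h | h | h | h | h
      · left; linarith
      · right; left; linarith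
      · right; left; linarith
      · right; right; left; linarith
      · right; right; right; left; linarith
      · right; right; right; right; left; linarith
      · right; right; right; right; right; norm_num at h ⊢; linarith
      · right; right; right; right; right; norm_num at h ⊢; linarith
  · exact A 2 (by norm_num) (by push_cast; linarith) (by push_cast; linarith)

/-- the table for blocks of length `≤ b1 < 1/2` -/
theorem table (b1 v0 : ℝ) (hb1 : b1 < 1 / 2) (hv0 : 0 < v0) : Table (97 / 500) b1 v0 0 := by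
  obtain ⟨q0, hq0⟩ := exists_nat_gt (1 / (1 - 2 * b1))
  set q : ℕ := max q0 1000 with hq
  have hq1 : 1000 ≤ q := le_max_right _ _
  have hq2 : (q0 : ℝ) ≤ q := by exact_mod_cast le_max_left q0 1000
  have hqp : (0 : ℝ) < q := by
    have : (1000 : ℝ) ≤ q := by exact_mod_cast hq1
    linarith
  have hk : (1 : ℝ) / q ≤ 1 - 2 * b1 := by
    rw [div_le_iff₀ hqp]
    have h1 : 1 / (1 - 2 * b1) < q := lt_of_lt_of_le hq0 hq2
    rw [div_lt_iff₀ (by linarith)] at h1
    linarith
  refine ⟨(1 / (q : ℝ)) ^ 2 / 100 * v0, by positivity, q, ?_⟩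
  intro b w τ W hb hb2 hw1 hw2 hW hW2 hL hF
  exact main q hq1 (1 / q) v0 0 _ b w τ W rfl hv0 (by positivity) (by positivity) le_rfl hb (by linarith)
    hw1 hw2 hW hW2 hL hF

/-- the table for blocks of length `≤ 41/100` with an absolute loss `th` in the total gain -/
theorem table41 : ∃ th : ℝ, 0 < th ∧ ∀ v0 : ℝ, 0 < v0 → Table (97 / 500) (41 / 100) v0 th := by
  refine ⟨(1 / (1000 : ℝ)) ^ 2 / 100, by norm_num, fun v0 hv0 => ?_⟩
  refine ⟨(1 / (1000 : ℝ)) ^ 2 / 100 * v0, by positivity, 1000, ?_⟩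
  intro b w τ W hb hb2 hw1 hw2 hW hW2 hL hF
  refine main 1000 le_rfl (1 / 1000) v0 ((1 / (1000 : ℝ)) ^ 2 / 100) _ b w τ W (by norm_num) hv0 le_rfl
    (by positivity) le_rfl hb (by linarith) hw1 hw2 hW hW2 hL hF

end Pool.Agent.Work.MP_a8fbd7_nt.OX.TAB
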