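import Mathlib
import Pool.Agent.Work.MP_a8fbd7_nt.OX.TAB.Table
import Pool.Agent.Work.MP_a8fbd7_nt.OX.CELL.Stmts

/-!
MP_a8fbd7_nt, block OX, part TAB: the table in the form used by CELL.
-/

namespace Pool.Agent.Work.MP_a8fbd7_nt.OX.TAB

theorem tab : CELL.StTab := by
  refine ⟨fun b1 v0 _ hb1 hv0 => ?_, ?_⟩
  · have h : Table (97 / 500) b1 v0 0 := table b1 v0 hb1 hv0
    exact h
  · obtain ⟨th, h1, h2⟩ := table41
    exact ⟨th, h1, fun v0 hv0 => h2 v0 hv0⟩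

end Pool.Agent.Work.MP_a8fbd7_nt.OX.TAB
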